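import Pool.Agent.helper28.SN.SpecC
import Pool.Agent.helper53.SC.HS1
import Pool.Agent.helper53.SC.HS2

/-!
Row sn:cCLN: the mass estimate.
-/

set_option autoImplicit false

open scoped Pointwise ContDiff
open MeasureTheory Set Filter Topology Pool.Agent.helper83.SC Pool.Agent.helper69.SN

namespace Pool.Agent.helper28.SN

lemma cCLN_hess_affine {m : ℕ} {g : E m → ℝ} (hg : ContDiff ℝ ∞ g) (c d : ℝ) (x : E m) :
    hess (fun y => c + d * g y) x = d • hess g x := by
  have h1 : hess (fun y => (fun _ : E m => c) y + (fun y => d * g y) y) x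
      = hess (fun _ : E m => c) x + hess (fun y => d * g y) x :=
    hess_add_of contDiff_const (contDiff_const.mul hg) x
  have h2 : hess (fun _ : E m => c) x = 0 := by
    have h3 : ∀ j : Fin m, pd j (fun _ : E m => c) = fun _ => 0 := by
      intro j
      funext y
      simp [pd]
    ext i j
    simp only [hess, h3]
    simp [pd]
  simp only at h1
  rw [h1, h2, zero_add]
  exact hess_smul_of hg d x

theorem cCLN (hRAD : cRAD_stmt) (hCMP : cCMP_stmt) (hMON : cMON_stmt) (hCNT : cCNT_stmt)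
    (hPSD : aPSD_stmt) (hDNN : aDNN_stmt) : cCLN_stmt := by
  intro m ρ hρ
  obtain ⟨g, C, hg, hC0, hg0, hgn, hg1, hgC⟩ := hRAD m ρ hρ
  refine ⟨2 * C, by positivity, ?_⟩
  intro n a lam b X r L ha hlam hb hX hL hXL hXG
  set v : E m → ℝ := fun x => -(L + 1) + (2 * L + 2) * g x with hv
  have hvC : ContDiff ℝ ∞ v := contDiff_const.add (contDiff_const.mul hg.1)
  have hvH : ∀ x, hess v x = (2 * L + 2) • hess g x := fun x =>
    cCLN_hess_affine hg.1 _ _ x
  have hB : ∀ x, Psd (hs a lam x) := fun x i =>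
    (hess_psd_of (ha i).1 (ha i).2 x).smul (hlam i)
  have hvP : ∀ x, (hess v x).PosSemidef := fun x => by
    rw [hvH]
    exact (hess_psd_of hg.1 hg.2 x).smul (by positivity)
  have hbP : ∀ x, (hess b x).PosSemidef := fun x => hess_psd_of hb.1 hb.2 x
  -- the set
  have hlt : ∀ x, ‖x‖ ≤ 2 * ρ → v x ≤ X x → ‖x‖ ^ 2 < 3 * ρ ^ 2 := by
    intro x hx hvx
    by_contra hcon
    have h1 := hg1 x (not_lt.1 hcon)
    have h2 := (abs_le.1 (hXL x hx)).2
    have h3 : v x = -(L + 1) + (2 * L + 2) * g x := rfl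
    nlinarith
  have hcomp : IsCompact {x | x ∈ Metric.ball (0 : E m) (2 * ρ) ∧ v x ≤ X x} := by
    have he : {x | x ∈ Metric.ball (0 : E m) (2 * ρ) ∧ v x ≤ X x}
        = {x | ‖x‖ ^ 2 ≤ 3 * ρ ^ 2} ∩ {x | v x ≤ X x} := by
      ext x
      simp only [Set.mem_ofPred_eq, mem_ball_zero_iff, mem_inter_iff]
      constructor
      · rintro ⟨h1, h2⟩
        exact ⟨(hlt x h1.le h2).le, h2⟩
      · rintro ⟨h1, h2⟩
        refine ⟨?_, h2⟩
        by_contra hcon
        have h3 := not_lt.1 hcon
        nlinarith [norm_nonneg x]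
    rw [he]
    apply Metric.isCompact_of_isClosed_isBounded
    · exact (isClosed_le (continuous_norm.pow 2) continuous_const).inter
        (isClosed_le hvC.continuous hX.continuous)
    · refine (Metric.isBounded_closedBall (x := (0 : E m)) (r := 2 * ρ)).subset ?_
      rintro x ⟨h1, -⟩
      rw [mem_closedBall_zero_iff]
      by_contra hcon
      have h3 := not_le.1 hcon
      have h4 : ‖x‖ ^ 2 ≤ 3 * ρ ^ 2 := h1
      nlinarith [norm_nonneg x]
  have hmain := hCMP a lam b X v r (Metric.ball 0 (2 * ρ)) ha hlam hb hX hvC Metric.isOpen_ball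
    hcomp (by
      intro x hx
      rw [mem_ball_zero_iff] at hx
      exact ⟨hXG x hx.le, hPSD _ (hB x) _ (hvP x)⟩)
  -- integrability
  have hint : ∀ u : E m → ℝ, ContDiff ℝ ∞ u → IntegrableOn
      (fun x => dPh (hs a lam x) r (hess b x) (hess u x)) (Metric.closedBall 0 (2 * ρ)) := by
    intro u hu
    exact (hCNT a lam b u r (fun i => (ha i).1) hb.1 hu).continuousOn.integrableOn_compact
      (isCompact_closedBall _ _)
  have hmeas1 : MeasurableSet {x | x ∈ Metric.ball (0 : E m) (2 * ρ) ∧ v x < X x} :=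
    (Metric.isOpen_ball.inter (isOpen_lt hvC.continuous hX.continuous)).measurableSet
  have hL1 : ∫ x in Metric.closedBall 0 ρ, dPh (hs a lam x) r (hess b x) (hess X x) ≤
      ∫ x in {x | x ∈ Metric.ball (0 : E m) (2 * ρ) ∧ v x < X x},
        dPh (hs a lam x) r (hess b x) (hess X x) := by
    refine setIntegral_mono_set ?_ ?_ ?_
    · refine (hint X hX).mono_set ?_
      rintro x ⟨hx, -⟩
      exact Metric.ball_subset_closedBall hx
    · refine (ae_restrict_iff' hmeas1).2 (Eventually.of_forall ?_)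
      rintro x ⟨hx, -⟩
      rw [mem_ball_zero_iff] at hx
      exact (hDNN _ (hB x) _ _ (hbP x) (hXG x hx.le)).1 r
    · refine Eventually.of_forall ?_
      intro x hx
      have hx' : ‖x‖ ≤ ρ := by
        have : x ∈ Metric.closedBall (0 : E m) ρ := hx
        rwa [mem_closedBall_zero_iff] at this
      refine ⟨?_, ?_⟩
      · rw [mem_ball_zero_iff]
        linarith
      · have h1 := hg0 x hx'
        have h2 := (abs_le.1 (hXL x (by linarith))).1
        show -(L + 1) + (2 * L + 2) * g x < X x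
        rw [h1]
        linarith
  set c : ℝ := 2 * C * (L + 1) with hc
  have hcN : ∀ x, hess (fun y : E m => c * ‖y‖ ^ 2 / 2) x = c • (1 : Mat m) := fun x =>
    hess_normSq_of c x
  have hqC : ContDiff ℝ ∞ (fun y : E m => c * ‖y‖ ^ 2 / 2) :=
    (contDiff_const.mul (contDiff_norm_sq ℝ)).div_const _
  have hpt : ∀ x, ‖x‖ ≤ 2 * ρ → 0 ≤ dPh (hs a lam x) r (hess b x) (hess v x) ∧
      dPh (hs a lam x) r (hess b x) (hess v x) ≤ dPh (hs a lam x) r (hess b x) (c • (1 : Mat m)) := by
    intro x hx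
    refine hMON _ _ _ _ r (hB x) (hbP x) (hvP x) ?_
    have h1 : c • (1 : Mat m) - hess v x = (2 * L + 2) • (C • (1 : Mat m) - hess g x) := by
      rw [hvH, smul_sub, smul_smul, hc]
      congr 2
      ring
    rw [h1]
    exact (hgC x hx).smul (by positivity)
  have hint2 : IntegrableOn (fun x => dPh (hs a lam x) r (hess b x) (c • (1 : Mat m)))
      (Metric.closedBall 0 (2 * ρ)) := by
    have h1 := hint _ hqC
    simp only [hcN] at h1
    exact h1
  have hmeas2 : MeasurableSet {x | x ∈ Metric.ball (0 : E m) (2 * ρ) ∧ v x ≤ X x} :=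
    hcomp.measurableSet
  have hsub2 : {x | x ∈ Metric.ball (0 : E m) (2 * ρ) ∧ v x ≤ X x} ⊆
      Metric.closedBall (0 : E m) (2 * ρ) := by
    rintro x ⟨hx, -⟩
    exact Metric.ball_subset_closedBall hx
  have hR1 : ∫ x in {x | x ∈ Metric.ball (0 : E m) (2 * ρ) ∧ v x ≤ X x},
        dPh (hs a lam x) r (hess b x) (hess v x) ≤
      ∫ x in {x | x ∈ Metric.ball (0 : E m) (2 * ρ) ∧ v x ≤ X x},
        dPh (hs a lam x) r (hess b x) (c • (1 : Mat m)) := by
    refine setIntegral_mono_on ((hint v hvC).mono_set hsub2) (hint2.mono_set hsub2) hmeas2 ?_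
    rintro x ⟨hx, -⟩
    rw [mem_ball_zero_iff] at hx
    exact (hpt x hx.le).2
  have hR2 : ∫ x in {x | x ∈ Metric.ball (0 : E m) (2 * ρ) ∧ v x ≤ X x},
        dPh (hs a lam x) r (hess b x) (c • (1 : Mat m)) ≤
      ∫ x in Metric.ball 0 (2 * ρ), dPh (hs a lam x) r (hess b x) (c • (1 : Mat m)) := by
    refine setIntegral_mono_set (hint2.mono_set Metric.ball_subset_closedBall) ?_ ?_
    · refine (ae_restrict_iff' measurableSet_ball).2 (Eventually.of_forall ?_)
      intro x hx
      rw [mem_ball_zero_iff] at hx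
      exact (hpt x hx.le).1.trans (hpt x hx.le).2
    · refine Eventually.of_forall ?_
      rintro x ⟨hx, -⟩
      exact hx
  exact hL1.trans (hmain.trans (hR1.trans hR2))

end Pool.Agent.helper28.SN
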