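import Pool.Agent.helper40.SN.SpecD
import Pool.Agent.helper53.SC.HS1
import Pool.Agent.helper53.SC.HS2

/-!
Row sn:dWQ: first properties of the function `w`.
-/

set_option autoImplicit false

open scoped Pointwise ContDiff
open MeasureTheory Set Filter Topology Pool.Agent.helper83.SC Pool.Agent.helper69.SN

namespace Pool.Agent.helper40.SN

lemma dWQ_convex {m n : ℕ} (S : Finset (Fin n)) (a : Fin n → E m → ℝ) (ha : ∀ i, CV (a i)) :
    CV (fun x => ∑ i ∈ S, a i x) := by
  classical
  induction S using Finset.induction_on with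
  | empty =>
    simp only [Finset.sum_empty]
    exact convexOn_const 0 convex_univ
  | insert i S hi ih =>
    simp only [Finset.sum_insert hi]
    exact ConvexOn.add (ha i) ih

theorem dWQ (hPER : bPER_stmt) (hCLS : bCLS_stmt) (hGEO : dGEO_stmt) (hPSD : aPSD_stmt) :
    dWQ_stmt := by
  intro m n S D r a hm ha
  obtain ⟨hQ, hQP, hQ0, -, -, -, hTb, -⟩ := hGEO D
  have hB : ∀ x, Psd (hs a (wt S 1 ∅ 0) x) := by
    intro x i
    refine (hess_psd_of (ha i).1 (ha i).2 x).smul ?_
    simp only [wt]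
    split_ifs <;> norm_num
  have hSs : ContDiff ℝ ∞ (fun x => ∑ i ∈ S, a i x) := ContDiff.sum fun i _ => (ha i).1
  have hSc : CV (fun x => ∑ i ∈ S, a i x) := dWQ_convex S a fun i => (ha i).2
  have hk : SmC (fun y => Qf D y + ∑ i ∈ S, a i y) := ⟨hQ.1.add hSs, ConvexOn.add hQ.2 hSc⟩
  have hkH : ∀ x, hess (fun y => Qf D y + ∑ i ∈ S, a i y) x
      - ∑ i, hs a (wt S 1 ∅ 0) x i ∈ GG (hs a (wt S 1 ∅ 0) x) := by
    intro x
    have h1 : hess (fun y => Qf D y + ∑ i ∈ S, a i y) x
        = hess (Qf D) x + ∑ i ∈ S, hess (a i) x := by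
      rw [show (fun y => Qf D y + ∑ i ∈ S, a i y)
        = fun y => Qf D y + (fun y => ∑ i ∈ S, a i y) y from rfl, hess_add_of hQ.1 hSs x,
        hess_sum_of S (fun i => (ha i).1) x]
    have h2 : ∑ i, hs a (wt S 1 ∅ 0) x i = ∑ i ∈ S, hess (a i) x := by
      rw [← Finset.sum_subset (Finset.subset_univ S)]
      · refine Finset.sum_congr rfl fun i hi => ?_
        simp [hs, wt, hi]
      · intro i _ hi
        simp [hs, wt, hi]
    rw [h1, h2, add_sub_cancel_right]
    exact hPSD _ (hB x) _ (hQP x)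
  obtain ⟨c1, c2, -, -, -⟩ := hCLS (fun y => hs a (wt S 1 ∅ 0) y) hB
  have hk0 := c1 _ hk hkH
  have hbd : Bornology.IsBounded (Tube D r) := by
    refine (Metric.isBounded_ball (x := (0 : E m)) (r := r + 1)).subset ?_
    intro x hx
    rw [mem_ball_zero_iff]
    exact hTb r x hx
  obtain ⟨p1, p2, p3, p4⟩ := hPER hm (fun y => hs a (wt S 1 ∅ 0) y) hB (Tube D r)
    (fun y => Qf D y + ∑ i ∈ S, a i y) hbd hk0
  refine ⟨?_, ?_, ?_, ?_, ?_⟩
  · exact (c2 _ p1).2.sub hSs.continuous
  · intro x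
    have := p2 x
    simp only [wf]
    linarith
  · intro x hx
    have := p3 x hx
    simp only [wf]
    linarith
  · have he : (fun y => wf S D r a y + ∑ i ∈ S, a i y)
        = per (fun y => hs a (wt S 1 ∅ 0) y) (Tube D r) (fun y => Qf D y + ∑ i ∈ S, a i y) := by
      funext y
      simp only [wf]
      ring
    rw [he]
    exact p1
  · intro κ hκ hκ0 x
    have := p4 κ hκ hκ0 x
    simp only [wf]
    linarith

end Pool.Agent.helper40.SN
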